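import Mathlib

set_option autoImplicit false

open Set Filter Topology Matrix

namespace Pool.Agent.H.MP_3a9d0e_gt

noncomputable def t : ℝ := liouvilleNumber (2 : ℕ)

lemma indep (p q r : ℤ) (h : (p : ℝ) + q * t + r * t ^ 2 = 0) : p = 0 ∧ q = 0 ∧ r = 0 := by
  have ht : Transcendental ℤ t := transcendental_liouvilleNumber le_rfl
  have := (transcendental_iff.1 ht)
    (Polynomial.C p + Polynomial.C q * Polynomial.X + Polynomial.C r * Polynomial.X ^ 2)
    (by simpa using h)
  have h0 := congrArg (Polynomial.coeff · 0) this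
  have h1 := congrArg (Polynomial.coeff · 1) this
  have h2 := congrArg (Polynomial.coeff · 2) this
  simp only [Polynomial.coeff_add, Polynomial.coeff_C_mul, Polynomial.coeff_X_pow,
    Polynomial.coeff_C, Polynomial.coeff_X, Polynomial.coeff_zero] at h0 h1 h2
  simp at h0 h1 h2
  exact ⟨h0, h1, h2⟩

def φ (x y z : ℝ) : GL (Fin 3) ℝ :=
  ⟨!![1, x, z; 0, 1, y; 0, 0, 1], !![1, -x, x * y - z; 0, 1, -y; 0, 0, 1],
    by ext i j; fin_cases i <;> fin_cases j <;> simp [Matrix.mul_apply, Fin.sum_univ_three] <;> ring,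
    by ext i j; fin_cases i <;> fin_cases j <;> simp [Matrix.mul_apply, Fin.sum_univ_three] <;> ring⟩

lemma φ_mul (x y z x' y' z' : ℝ) :
    φ x y z * φ x' y' z' = φ (x + x') (y + y') (z + z' + x * y') := by
  ext i j
  fin_cases i <;> fin_cases j <;> simp [φ, Matrix.mul_apply, Fin.sum_univ_three] <;> ring

lemma φ_zero : φ 0 0 0 = 1 := by
  ext i j
  fin_cases i <;> fin_cases j <;> simp [φ]

lemma φ_inv (x y z : ℝ) : (φ x y z)⁻¹ = φ (-x) (-y) (x * y - z) := by
  rw [inv_eq_iff_mul_eq_one, φ_mul, ← φ_zero]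
  congr 1 <;> ring

lemma cont_φ : Continuous fun p : ℝ × ℝ × ℝ => φ p.1 p.2.1 p.2.2 := by
  refine Units.continuous_iff.2 ⟨?_, ?_⟩
  · refine continuous_matrix fun i j => ?_
    fin_cases i <;> fin_cases j <;> simp [φ] <;> fun_prop
  · refine continuous_matrix fun i j => ?_
    simp only [φ_inv]
    fin_cases i <;> fin_cases j <;> simp [φ] <;> fun_prop

def X (g : GL (Fin 3) ℝ) : ℝ := g.1 0 1
def Y (g : GL (Fin 3) ℝ) : ℝ := g.1 1 2
def Z (g : GL (Fin 3) ℝ) : ℝ := g.1 0 2

lemma X_φ (x y z : ℝ) : X (φ x y z) = x := by simp [X, φ]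
lemma Y_φ (x y z : ℝ) : Y (φ x y z) = y := by simp [Y, φ]
lemma Z_φ (x y z : ℝ) : Z (φ x y z) = z := by simp [Z, φ]
lemma cont_X : Continuous X := Units.continuous_val.matrix_elem 0 1
lemma cont_Y : Continuous Y := Units.continuous_val.matrix_elem 1 2
lemma cont_Z : Continuous Z := Units.continuous_val.matrix_elem 0 2

def InA (x y : ℝ) : Prop := ∃ m n k : ℤ, x = m + k * t ∧ y = n + k * t ^ 2

lemma InA.add {x y x' y' : ℝ} (h : InA x y) (h' : InA x' y') : InA (x + x') (y + y') := by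
  obtain ⟨m, n, k, rfl, rfl⟩ := h
  obtain ⟨m', n', k', rfl, rfl⟩ := h'
  exact ⟨m + m', n + n', k + k', by push_cast; ring, by push_cast; ring⟩

lemma InA.neg {x y : ℝ} (h : InA x y) : InA (-x) (-y) := by
  obtain ⟨m, n, k, rfl, rfl⟩ := h
  exact ⟨-m, -n, -k, by push_cast; ring, by push_cast; ring⟩

lemma InA.zero : InA 0 0 := ⟨0, 0, 0, by simp, by simp⟩

def G : Subgroup (GL (Fin 3) ℝ) where
  carrier := {g | ∃ x y z, InA x y ∧ g = φ x y z}
  one_mem' := ⟨0, 0, 0, InA.zero, φ_zero.symm⟩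
  mul_mem' := by
    rintro _ _ ⟨x, y, z, h, rfl⟩ ⟨x', y', z', h', rfl⟩
    exact ⟨_, _, _, h.add h', φ_mul ..⟩
  inv_mem' := by
    rintro _ ⟨x, y, z, h, rfl⟩
    exact ⟨_, _, _, h.neg, φ_inv ..⟩

lemma not_closed : ¬ IsClosed (G : Set (GL (Fin 3) ℝ)) := by
  intro h
  let A : Set (ℝ × ℝ) := {p | InA p.1 p.2}
  have hA : IsClosed A := by
    have hc : Continuous fun p : ℝ × ℝ => φ p.1 p.2 0 :=
      cont_φ.comp (f := fun p : ℝ × ℝ => (p.1, p.2, (0 : ℝ))) (by fun_prop)
    convert h.preimage hc using 1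
    ext p
    refine ⟨fun hp => ⟨_, _, _, hp, rfl⟩, ?_⟩
    rintro ⟨x, y, z, hp, he⟩
    have h1 := congrArg X he
    have h2 := congrArg Y he
    rw [X_φ, X_φ] at h1
    rw [Y_φ, Y_φ] at h2
    show InA p.1 p.2
    rwa [h1, h2]
  have hc : A.Countable := by
    refine (countable_range fun v : ℤ × ℤ × ℤ =>
      (((v.1 : ℝ) + v.2.2 * t, (v.2.1 : ℝ) + v.2.2 * t ^ 2) : ℝ × ℝ)).mono ?_
    rintro ⟨x, y⟩ ⟨m, n, k, h1, h2⟩
    exact ⟨(m, n, k), Prod.ext h1.symm h2.symm⟩
  let u : ℕ → ℝ × ℝ := fun k => (Int.fract (k * t), Int.fract (k * t ^ 2))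
  have huA : ∀ k, u k ∈ A := fun k =>
    ⟨-⌊k * t⌋, -⌊k * t ^ 2⌋, k, by simp only [u, Int.fract]; push_cast; ring,
      by simp only [u, Int.fract]; push_cast; ring⟩
  have hinj : Function.Injective u := by
    intro k l hkl
    have h1 : Int.fract (k * t) = Int.fract (l * t) := congrArg Prod.fst hkl
    have := indep (⌊l * t⌋ - ⌊k * t⌋) (k - l) 0 (by
      simp only [Int.fract] at h1; push_cast; linarith)
    omega
  obtain ⟨p, -, s, hs, hlim⟩ := (isCompact_Icc.prod isCompact_Icc).tendsto_subseq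
    (x := u) (fun k => (⟨⟨Int.fract_nonneg _, (Int.fract_lt_one _).le⟩,
      ⟨Int.fract_nonneg _, (Int.fract_lt_one _).le⟩⟩ : u k ∈ Icc (0 : ℝ) 1 ×ˢ Icc (0 : ℝ) 1))
  have hd : Tendsto (fun k => u (s (k + 1)) - u (s k)) atTop (𝓝 0) := by
    have := (hlim.comp (tendsto_add_atTop_nat 1)).sub hlim
    simpa using this
  have hp : Perfect A := by
    refine ⟨hA, fun q hq => ?_⟩
    rw [accPt_iff_frequently]
    have h1 : Tendsto (fun k => q + (u (s (k + 1)) - u (s k))) atTop (𝓝 q) := by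
      simpa using hd.const_add q
    refine h1.frequently (Frequently.of_forall fun k => ⟨?_, ?_⟩)
    · intro he
      have : u (s (k + 1)) = u (s k) := by simpa [sub_eq_zero] using he
      exact (hs (Nat.lt_succ_self k)).ne' (hinj this)
    · have := InA.add hq (InA.add (huA (s (k + 1))) (huA (s k)).neg)
      simpa [A, sub_eq_add_neg] using this
  obtain ⟨f, hf, -, hfi⟩ := hp.exists_nat_bool_injection ⟨_, huA 0⟩
  have : Countable (ℕ → Bool) := by
    have := (hc.mono hf).to_subtype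
    exact (Set.rangeFactorization_injective.2 hfi).countable
  have h2 := Cardinal.mk_le_aleph0_iff.2 this
  rw [← Cardinal.power_def, Cardinal.mk_bool, Cardinal.mk_nat] at h2
  exact absurd h2 (not_le.2 (Cardinal.cantor _))

theorem discrete (L : Subgroup G) (hL : IsClosed (L : Set G))
    (hz : TopologicalSpace.IsTopologicalBasis {U : Set L | IsClopen U}) : DiscreteTopology L := by
  haveI := totallySeparatedSpace_of_t0_of_basis_clopen hz
  let ψ : ℝ → G := fun z => ⟨φ 0 0 z, 0, 0, z, InA.zero, rfl⟩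
  have hψ : Continuous ψ :=
    (cont_φ.comp (f := fun z : ℝ => ((0 : ℝ), (0 : ℝ), z)) (by fun_prop)).subtype_mk _
  let C : AddSubgroup ℝ :=
    { carrier := {z | ψ z ∈ L}
      zero_mem' := by
        have : ψ 0 = 1 := Subtype.ext φ_zero
        show ψ 0 ∈ L
        rw [this]; exact L.one_mem
      add_mem' := by
        intro a b ha hb
        have : ψ (a + b) = ψ a * ψ b := Subtype.ext (by
          show φ 0 0 (a + b) = φ 0 0 a * φ 0 0 b
          rw [φ_mul]; congr 1 <;> ring)
        show ψ (a + b) ∈ L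
        rw [this]; exact L.mul_mem ha hb
      neg_mem' := by
        intro a ha
        have : ψ (-a) = (ψ a)⁻¹ := Subtype.ext (by
          show φ 0 0 (-a) = (φ 0 0 a)⁻¹
          rw [φ_inv]; congr 1 <;> ring)
        show ψ (-a) ∈ L
        rw [this]; exact L.inv_mem ha }
  have hC : IsClosed (C : Set ℝ) := hL.preimage hψ
  obtain ⟨δ, hδ, hCδ⟩ : ∃ δ > 0, ∀ z ∈ C, |z| < δ → z = 0 := by
    rcases C.dense_or_cyclic with h | ⟨c, h⟩
    · exfalso
      have hall : ∀ z, ψ z ∈ L := fun z => by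
        have := h z
        rwa [hC.closure_eq] at this
      have hc : Continuous fun z => (⟨ψ z, hall z⟩ : L) := hψ.subtype_mk _
      have := (isPreconnected_range hc).subsingleton ⟨0, rfl⟩ ⟨1, rfl⟩
      have h2 := congrArg (fun l : L => Z l.1.1) this
      simp only [ψ, Z_φ] at h2
      exact zero_ne_one h2
    · by_cases hc : c = 0
      · refine ⟨1, one_pos, fun z hz _ => ?_⟩
        rw [h, AddSubgroup.mem_closure_singleton] at hz
        obtain ⟨n, rfl⟩ := hz
        simp [hc]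
      · refine ⟨|c|, abs_pos.2 hc, fun z hz hlt => ?_⟩
        rw [h, AddSubgroup.mem_closure_singleton] at hz
        obtain ⟨n, rfl⟩ := hz
        rw [zsmul_eq_mul, abs_mul] at hlt
        have h1 : |(n : ℝ)| < 1 := by
          by_contra h2
          push Not at h2
          nlinarith [abs_pos.2 hc]
        have : n = 0 := by
          have : |n| < 1 := by exact_mod_cast h1
          exact Int.abs_lt_one_iff.1 this
        simp [this]
  let x : L → ℝ := fun l => X l.1.1
  let y : L → ℝ := fun l => Y l.1.1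
  let z : L → ℝ := fun l => Z l.1.1
  have hx : Continuous x := cont_X.comp (continuous_subtype_val.comp continuous_subtype_val)
  have hy : Continuous y := cont_Y.comp (continuous_subtype_val.comp continuous_subtype_val)
  have hz : Continuous z := cont_Z.comp (continuous_subtype_val.comp continuous_subtype_val)
  have hrep : ∀ l : L, InA (x l) (y l) ∧ l.1.1 = φ (x l) (y l) (z l) := by
    rintro ⟨⟨_, a, b, c, h, rfl⟩, hl⟩
    simp only [x, y, z, X_φ, Y_φ, Z_φ]
    exact ⟨h, trivial⟩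
  have hx1 : x 1 = 0 := by show X 1 = 0; rw [← φ_zero, X_φ]
  have hy1 : y 1 = 0 := by show Y 1 = 0; rw [← φ_zero, Y_φ]
  have hz1 : z 1 = 0 := by show Z 1 = 0; rw [← φ_zero, Z_φ]
  have hdet : ∀ l l' : L, x l * y l' - x l' * y l ∈ C := by
    intro l l'
    have : ψ (x l * y l' - x l' * y l) = (l * l' * l⁻¹ * l'⁻¹ : L) := Subtype.ext (by
      show φ 0 0 _ = l.1.1 * l'.1.1 * l.1.1⁻¹ * l'.1.1⁻¹
      rw [(hrep l).2, (hrep l').2, φ_inv, φ_inv, φ_mul, φ_mul, φ_mul]
      congr 1 <;> ring)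
    show ψ _ ∈ L
    rw [this]
    exact Subtype.property _
  obtain ⟨O, hO, h1O, hO'⟩ : ∃ O : Set L, IsOpen O ∧ 1 ∈ O ∧ ∀ l ∈ O, x l = 0 ∧ y l = 0 := by
    by_cases hA : ∃ u v : L, x u * y v - x v * y u ≠ 0
    · obtain ⟨u, v, huv⟩ := hA
      refine ⟨{l | |x u * y l - x l * y u| < δ} ∩ {l | |x v * y l - x l * y v| < δ},
        (isOpen_lt (by fun_prop) continuous_const).inter
          (isOpen_lt (by fun_prop) continuous_const), by simp [hx1, hy1, hδ.lt], ?_⟩
      rintro l ⟨h1, h2⟩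
      have h3 := hCδ _ (hdet u l) h1
      have h4 := hCδ _ (hdet v l) h2
      constructor
      · apply mul_left_cancel₀ huv
        linear_combination (x v) * h3 - (x u) * h4
      · apply mul_left_cancel₀ huv
        linear_combination (y v) * h3 - (y u) * h4
    · push Not at hA
      by_cases hB : ∃ u : L, ¬ (x u = 0 ∧ y u = 0)
      · obtain ⟨u, hu⟩ := hB
        obtain ⟨m, n, k, hm, hn⟩ := (hrep u).1
        have hpos : 0 < x u ^ 2 + y u ^ 2 := by
          by_contra h
          exact hu ⟨by nlinarith [sq_nonneg (x u), sq_nonneg (y u)],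
            by nlinarith [sq_nonneg (x u), sq_nonneg (y u)]⟩
        have hN : (0 : ℝ) < m ^ 2 + n ^ 2 + k ^ 2 := by
          by_contra h
          have h1 : (m : ℝ) = 0 := by nlinarith [sq_nonneg (m : ℝ), sq_nonneg (n : ℝ), sq_nonneg (k : ℝ)]
          have h2 : (n : ℝ) = 0 := by nlinarith [sq_nonneg (m : ℝ), sq_nonneg (n : ℝ), sq_nonneg (k : ℝ)]
          have h3 : (k : ℝ) = 0 := by nlinarith [sq_nonneg (m : ℝ), sq_nonneg (n : ℝ), sq_nonneg (k : ℝ)]
          exact hu ⟨by rw [hm, h1, h3]; ring, by rw [hn, h2, h3]; ring⟩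
        refine ⟨{l | ((m : ℝ) ^ 2 + n ^ 2 + k ^ 2) ^ 2 * (x l ^ 2 + y l ^ 2) < x u ^ 2 + y u ^ 2},
          isOpen_lt (by fun_prop) continuous_const, by simpa [hx1, hy1] using hpos, ?_⟩
        intro l hl
        obtain ⟨m', n', k', hm', hn'⟩ := (hrep l).1
        have h0 := hA u l
        obtain ⟨e1, e2, e3⟩ := indep (m * n' - m' * n) (k * n' - k' * n) (m * k' - m' * k) (by
          rw [hm, hn, hm', hn'] at h0
          push_cast
          linear_combination h0)
        have e1' : (m : ℝ) * n' - m' * n = 0 := by exact_mod_cast e1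
        have e2' : (k : ℝ) * n' - k' * n = 0 := by exact_mod_cast e2
        have e3' : (m : ℝ) * k' - m' * k = 0 := by exact_mod_cast e3
        set s : ℤ := m * m' + n * n' + k * k' with hs
        have hsx : ((m : ℝ) ^ 2 + n ^ 2 + k ^ 2) * x l = s * x u := by
          rw [hm, hm', hs]; push_cast
          linear_combination (-(n : ℝ)) * e1' - k * e3' + t * (m * e3' - n * e2')
        have hsy : ((m : ℝ) ^ 2 + n ^ 2 + k ^ 2) * y l = s * y u := by
          rw [hn, hn', hs]; push_cast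
          linear_combination (m : ℝ) * e1' + k * e2' + t ^ 2 * (m * e3' - n * e2')
        have h5 : (s : ℝ) ^ 2 * (x u ^ 2 + y u ^ 2) < x u ^ 2 + y u ^ 2 := by
          have : (s : ℝ) ^ 2 * (x u ^ 2 + y u ^ 2)
              = ((m : ℝ) ^ 2 + n ^ 2 + k ^ 2) ^ 2 * (x l ^ 2 + y l ^ 2) := by
            have a1 : (s * x u) ^ 2 = (((m : ℝ) ^ 2 + n ^ 2 + k ^ 2) * x l) ^ 2 := by rw [hsx]
            have a2 : (s * y u) ^ 2 = (((m : ℝ) ^ 2 + n ^ 2 + k ^ 2) * y l) ^ 2 := by rw [hsy]
            linear_combination a1 + a2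
          rw [this]; exact hl
        have h6 : (s : ℝ) ^ 2 < 1 := by
          by_contra h
          push Not at h
          nlinarith
        have h7 : s = 0 := by
          have : s ^ 2 < 1 := by exact_mod_cast h6
          nlinarith
        rw [h7] at hsx hsy
        simp only [Int.cast_zero, zero_mul] at hsx hsy
        exact ⟨(mul_eq_zero.1 hsx).resolve_left hN.ne', (mul_eq_zero.1 hsy).resolve_left hN.ne'⟩
      · push Not at hB
        exact ⟨univ, isOpen_univ, trivial, fun l _ => hB l⟩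
  refine discreteTopology_of_isOpen_singleton_one ?_
  convert hO.inter (isOpen_lt (f := fun l => |z l|) (by fun_prop) (continuous_const (y := δ)))
    using 1
  ext l
  constructor
  · rintro rfl
    exact ⟨h1O, by simpa [hz1] using hδ.lt⟩
  · rintro ⟨h1, h2⟩
    obtain ⟨h3, h4⟩ := hO' l h1
    have h5 := (hrep l).2
    rw [h3, h4] at h5
    have h6 : z l ∈ C := by
      show ψ (z l) ∈ L
      have : ψ (z l) = l.1 := Subtype.ext h5.symm
      rw [this]; exact l.2
    rw [hCδ _ h6 h2, φ_zero] at h5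
    exact Subtype.ext (Subtype.ext h5)

end Pool.Agent.H.MP_3a9d0e_gt
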